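import Pool.Agent.P.MP_84fce2_co.s.Main

namespace Pool.Agent.Results.MP_84fce2_co.Seven

open Pool.Agent.P.MP_84fce2_co

/-- The distinguishing extension number of the Euclidean plane under its full isometry group
is 7. -/
theorem result : ∃ k : ℕ,
    IsLeast {k : ℕ | ∃ c : EuclideanSpace ℝ (Fin 2) → Fin k, Distinguishing c} k ∧
    IsLeast {n : ℕ | ∀ W : Set (EuclideanSpace ℝ (Fin 2)), (n : ℕ∞) ≤ W.encard →
      (∀ γ : EuclideanSpace ℝ (Fin 2) ≃ᵢ EuclideanSpace ℝ (Fin 2), (∀ w ∈ W, γ w = w) → γ = 1) →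
      ∀ c₀ : (Wᶜ : Set (EuclideanSpace ℝ (Fin 2))) → Fin k,
        ∃ c : EuclideanSpace ℝ (Fin 2) → Fin k,
          (∀ x : (Wᶜ : Set (EuclideanSpace ℝ (Fin 2))), c x = c₀ x) ∧ Distinguishing c} 7 :=
  Pool.Agent.P.MP_84fce2_co.Sv.main

/-- The question as posed (finiteness); not claimed separately. -/
theorem posed : ∃ k : ℕ,
    IsLeast {k : ℕ | ∃ c : EuclideanSpace ℝ (Fin 2) → Fin k, Distinguishing c} k ∧
    ∃ n : ℕ, ∀ W : Set (EuclideanSpace ℝ (Fin 2)), (n : ℕ∞) ≤ W.encard →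
      (∀ γ : EuclideanSpace ℝ (Fin 2) ≃ᵢ EuclideanSpace ℝ (Fin 2), (∀ w ∈ W, γ w = w) → γ = 1) →
      ∀ c₀ : (Wᶜ : Set (EuclideanSpace ℝ (Fin 2))) → Fin k,
        ∃ c : EuclideanSpace ℝ (Fin 2) → Fin k,
          (∀ x : (Wᶜ : Set (EuclideanSpace ℝ (Fin 2))), c x = c₀ x) ∧ Distinguishing c := by
  obtain ⟨k, hk, h⟩ := result
  exact ⟨k, hk, 7, h.1⟩

end Pool.Agent.Results.MP_84fce2_co.Seven
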